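import Pool.Agent.H37.CNP.Stmts

/-!
# Board `cnp`, row EXI: existence of a place at infinity
-/

set_option autoImplicit false

namespace Pool.CND

open Polynomial WithZero IntermediateField
open scoped IntermediateField.algebraAdjoinAdjoin

section exi

variable {k L : Type} [Field k] [Field L] [Algebra k L] (v : Valuation L ℤᵐ⁰)

theorem exi_poly (hk : ∀ c : k, v (algebraMap k L c) ≤ 1) (z : L) (hz : v z ≤ 1) (p : k[X]) :
    v (aeval z p) ≤ 1 := by
  induction p using Polynomial.induction_on' with
  | add p q hp hq =>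
    rw [map_add]
    exact (v.map_add _ _).trans (max_le hp hq)
  | monomial n a =>
    rw [aeval_monomial, map_mul, map_pow]
    exact mul_le_one' (hk a) (pow_le_one' hz n)

theorem exi_root [IsAlgClosed k] (hk : ∀ c : k, v (algebraMap k L c) ≤ 1)
    (hk1 : ∀ c : k, c ≠ 0 → v (algebraMap k L c) = 1) (z : L) (hz : v z ≤ 1) (n : ℕ) :
    ∀ g : k[X], g.natDegree = n → g ≠ 0 → v (aeval z g) < 1 →
      ∃ c : k, v (z - algebraMap k L c) < 1 := by
  induction n with
  | zero =>
    intro g hg h0 hv
    rw [eq_C_of_natDegree_eq_zero hg] at h0 hv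
    rw [aeval_C, hk1 _ (fun h => h0 (by rw [h, C_0]))] at hv
    exact absurd hv (lt_irrefl _)
  | succ n ih =>
    intro g hg h0 hv
    have hd : g.degree ≠ 0 := by
      rw [degree_eq_natDegree h0, hg]
      exact_mod_cast Nat.succ_ne_zero n
    obtain ⟨c, hc⟩ := IsAlgClosed.exists_root g hd
    obtain ⟨g', rfl⟩ := dvd_iff_isRoot.2 hc
    have h0' : g' ≠ 0 := right_ne_zero_of_mul h0
    rw [natDegree_mul (X_sub_C_ne_zero c) h0', natDegree_X_sub_C] at hg
    rw [map_mul, map_mul, map_sub, aeval_X, aeval_C] at hv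
    by_cases h1 : v (z - algebraMap k L c) < 1
    · exact ⟨c, h1⟩
    have h2 : v (z - algebraMap k L c) = 1 :=
      le_antisymm ((v.map_sub _ _).trans (max_le hz (hk c))) (not_lt.1 h1)
    rw [h2, one_mul] at hv
    exact ih g' (by omega) h0' hv

theorem exi_red (hk : ∀ c : k, v (algebraMap k L c) ≤ 1) (s z : L) (hs : v s < 1) (hz : v z ≤ 1)
    (G : k[X][X]) :
    v (eval₂ ((aeval s : k[X] →ₐ[k] L) : k[X] →+* L) z G -
      aeval z (G.map (constantCoeff (R := k)))) ≤ v s := by
  induction G using Polynomial.induction_on' with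
  | add p q hp hq =>
    rw [eval₂_add, Polynomial.map_add, map_add]
    have e : ∀ a b c d : L, a + b - (c + d) = (a - c) + (b - d) := fun a b c d => by ring
    rw [e]
    exact (v.map_add _ _).trans (max_le hp hq)
  | monomial n f =>
    rw [eval₂_monomial, map_monomial, aeval_monomial, ← sub_mul, map_mul, map_pow]
    have h1 : ((aeval s : k[X] →ₐ[k] L) : k[X] →+* L) f - algebraMap k L (constantCoeff f) =
        aeval s (divX f) * s := by
      have h2 := congrArg (aeval s) (divX_mul_X_add f)
      rw [map_add, map_mul, aeval_X, aeval_C] at h2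
      rw [constantCoeff_apply]
      show aeval s f - _ = _
      rw [← h2]
      ring
    rw [h1, map_mul]
    calc v (aeval s (divX f)) * v s * v z ^ n ≤ 1 * v s * 1 :=
          mul_le_mul' (mul_le_mul' (exi_poly v hk s hs.le _) le_rfl) (pow_le_one' hz n)
      _ = v s := by rw [one_mul, mul_one]

theorem exi_alg (hk : ∀ c : k, v (algebraMap k L c) ≤ 1) (s z : L) (hs0 : s ≠ 0) (hs : v s < 1)
    (hz : v z ≤ 1) (i : ℕ) (n : ℕ) :
    ∀ G : k[X][X], (G.coeff i).natDegree = n → G.coeff i ≠ 0 →
      eval₂ ((aeval s : k[X] →ₐ[k] L) : k[X] →+* L) z G = 0 →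
      ∃ g : k[X], g ≠ 0 ∧ v (aeval z g) < 1 := by
  induction n using Nat.strong_induction_on with
  | _ n ih =>
    intro G hn h0 hG
    by_cases h : ∀ j, X ∣ G.coeff j
    · obtain ⟨G', rfl⟩ := (C_dvd_iff_dvd_coeff _ _).2 h
      rw [coeff_C_mul] at hn h0
      have h0' : G'.coeff i ≠ 0 := right_ne_zero_of_mul h0
      rw [natDegree_X_mul h0'] at hn
      refine ih _ ?_ G' rfl h0' ?_
      · omega
      · rw [eval₂_mul, eval₂_C] at hG
        rcases mul_eq_zero.1 hG with h1 | h1
        · exfalso
          apply hs0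
          have h2 : (aeval s : k[X] →ₐ[k] L) X = 0 := h1
          rwa [aeval_X] at h2
        · exact h1
    · push Not at h
      obtain ⟨j, hj⟩ := h
      refine ⟨G.map constantCoeff, ?_, ?_⟩
      · intro h1
        apply hj
        rw [X_dvd_iff]
        have h2 := congrArg (fun q => q.coeff j) h1
        simpa using h2
      · have h1 := exi_red v hk s z hs hz G
        rw [hG, zero_sub, Valuation.map_neg] at h1
        exact h1.trans_lt hs

end exi

theorem exi_thm : S_EXI := by
  intro k L _ _ _ _ x hx hfin hsep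
  have hx0 : x ≠ 0 := by
    rintro rfl
    exact hx isAlgebraic_zero
  obtain ⟨s, hs⟩ : ∃ s : L, s = x⁻¹ := ⟨_, rfl⟩
  have hs0 : s ≠ 0 := by rw [hs]; exact inv_ne_zero hx0
  have hxs : x = s⁻¹ := by rw [hs, inv_inv]
  have htr : Transcendental k s := by
    rw [hs]
    exact fun h => hx (by simpa using h.inv)
  have hE : adjoin k {x} = adjoin k {s} := by
    apply le_antisymm
    · rw [adjoin_simple_le_iff, hxs]
      exact inv_mem (mem_adjoin_simple_self k s)
    · rw [adjoin_simple_le_iff, hs]
      exact inv_mem (mem_adjoin_simple_self k x)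
  rw [hE] at hfin hsep
  let A := Algebra.adjoin k {s}
  let sA : A := ⟨s, Algebra.self_mem_adjoin_singleton k s⟩
  have hsurj : Function.Surjective (aeval sA : k[X] →ₐ[k] A) := by
    intro a
    have h1 : (a : L) ∈ Algebra.adjoin k {s} := a.2
    rw [Algebra.adjoin_singleton_eq_range_aeval] at h1
    obtain ⟨p, hp⟩ := h1
    refine ⟨p, Subtype.ext ?_⟩
    have h2 : ((aeval sA p : A) : L) = aeval s p := by
      have := aeval_algebraMap_apply L sA p
      exact this.symm
    rw [h2]
    exact hp
  have hpir : IsPrincipalIdealRing A :=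
    IsPrincipalIdealRing.of_surjective (aeval sA : k[X] →ₐ[k] A).toRingHom hsurj
  have hded : IsDedekindDomain A := inferInstance
  have hsA0 : sA ≠ 0 := fun h => hs0 (congrArg Subtype.val h)
  have hns : sA ∈ nonunits A := by
    intro hu
    obtain ⟨t, ht⟩ := hu.exists_right_inv
    obtain ⟨p, rfl⟩ := hsurj t
    have h1 : aeval s (X * p - 1) = 0 := by
      have h2 := congrArg Subtype.val ht
      have h3 : ((aeval sA p : A) : L) = aeval s p := (aeval_algebraMap_apply L sA p).symm
      have h4 : s * aeval s p = 1 := by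
        rw [← h3]
        exact h2
      rw [map_sub, map_mul, aeval_X, map_one, h4, sub_self]
    have h2 := (transcendental_iff.1 htr) _ h1
    have h3 := congrArg (fun q => q.coeff 0) h2
    simp at h3
  have hfr : IsFractionRing (integralClosure A L) L :=
    integralClosure.isFractionRing_of_finite_extension (adjoin k {s}) L
  have hdB : IsDedekindDomain (integralClosure A L) :=
    integralClosure.isDedekindDomain A (adjoin k {s}) L
  let B := integralClosure A L
  obtain ⟨m, hm, hsm⟩ := exists_max_ideal_of_mem_nonunits hns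
  have hker : RingHom.ker (algebraMap A B) = ⊥ := by
    rw [← RingHom.injective_iff_ker_eq_bot]
    intro a b hab
    have h1 : algebraMap B L (algebraMap A B a) = algebraMap B L (algebraMap A B b) := by rw [hab]
    rw [← IsScalarTower.algebraMap_apply, ← IsScalarTower.algebraMap_apply] at h1
    exact Subtype.ext h1
  obtain ⟨Q, hQ, hQm⟩ := Ideal.exists_ideal_over_maximal_of_isIntegral (S := B) m
    (by rw [hker]; exact bot_le)
  have hsQ : algebraMap A B sA ∈ Q := by
    have : sA ∈ Q.comap (algebraMap A B) := by rw [hQm]; exact hsm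
    exact this
  have hsB : algebraMap B L (algebraMap A B sA) = s := by
    rw [← IsScalarTower.algebraMap_apply]
    rfl
  have hQ0 : Q ≠ ⊥ := by
    intro h
    rw [h, Ideal.mem_bot] at hsQ
    apply hs0
    rw [← hsB, hsQ, map_zero]
  let vv : IsDedekindDomain.HeightOneSpectrum B := ⟨Q, hQ.isPrime, hQ0⟩
  let w : Valuation L ℤᵐ⁰ := vv.valuation L
  have hws : w s < 1 := by
    have h1 := (vv.valuation_lt_one_iff_mem (K := L) (algebraMap A B sA)).2 hsQ
    exact h1
  have hwk : ∀ c : k, w (algebraMap k L c) ≤ 1 := by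
    intro c
    have h1 := vv.valuation_le_one (K := L) (algebraMap A B (algebraMap k A c))
    exact h1
  have hwk1 : ∀ c : k, c ≠ 0 → w (algebraMap k L c) = 1 := by
    intro c hc
    refine le_antisymm (hwk c) ?_
    have h1 : w (algebraMap k L c) * w (algebraMap k L c⁻¹) = 1 := by
      rw [← map_mul, ← map_mul, mul_inv_cancel₀ hc, map_one, map_one]
    calc (1 : ℤᵐ⁰) = w (algebraMap k L c) * w (algebraMap k L c⁻¹) := h1.symm
      _ ≤ w (algebraMap k L c) * 1 := mul_le_mul' le_rfl (hwk _)
      _ = _ := mul_one _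
  have hw0 : ∀ z : L, z ≠ 0 → w z ≠ 0 := fun z hz => (Valuation.ne_zero_iff _).2 hz
  have halg : Algebra.IsAlgebraic A L := IsFractionRing.comap_isAlgebraic_iff.mpr
    (inferInstance : Algebra.IsAlgebraic (adjoin k {s}) L)
  refine ⟨{
    ord := fun z => -log (w z)
    ord_mul := ?_
    ord_add := ?_
    ord_surj := ?_
    ord_const := ?_
    residue := ?_ }, ?_⟩
  · intro a b ha hb
    show -log (w (a * b)) = -log (w a) + -log (w b)
    rw [map_mul, log_mul (hw0 a ha) (hw0 b hb)]
    ring
  · intro a b ha hb hab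
    show min (-log (w a)) (-log (w b)) ≤ -log (w (a + b))
    rcases le_max_iff.1 (w.map_add a b) with h | h
    · have := (log_le_log (hw0 _ hab) (hw0 _ ha)).2 h
      exact (min_le_left _ _).trans (by omega)
    · have := (log_le_log (hw0 _ hab) (hw0 _ hb)).2 h
      exact (min_le_right _ _).trans (by omega)
  · obtain ⟨π, hπ⟩ := vv.valuation_exists_uniformizer L
    refine ⟨π, ?_, ?_⟩
    · rintro rfl
      rw [map_zero] at hπ
      exact exp_ne_zero hπ.symm
    · show -log (w π) = 1
      have : w π = exp (-1 : ℤ) := hπ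
      rw [this, log_exp]
      norm_num
  · intro c hc
    show -log (w (algebraMap k L c)) = 0
    rw [hwk1 c hc, log_one, neg_zero]
  · intro z hz0 hz
    have hz1 : w z ≤ 1 := by
      have h1 : log (w z) ≤ 0 := by
        have : (0 : ℤ) ≤ -log (w z) := hz
        omega
      have h2 := (log_le_iff_le_exp (hw0 z hz0)).1 h1
      rwa [exp_zero] at h2
    obtain ⟨p, hp0, hp⟩ := halg.isAlgebraic z
    obtain ⟨G, rfl⟩ := Polynomial.map_surjective (aeval sA : k[X] →ₐ[k] A).toRingHom hsurj p
    have hG0 : G ≠ 0 := by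
      rintro rfl
      exact hp0 (Polynomial.map_zero _)
    obtain ⟨i, hi⟩ : ∃ i, G.coeff i ≠ 0 := by
      by_contra hcon
      push Not at hcon
      exact hG0 (Polynomial.ext hcon)
    have hev : eval₂ ((aeval s : k[X] →ₐ[k] L) : k[X] →+* L) z G = 0 := by
      rw [aeval_def, eval₂_map] at hp
      rw [← hp]
      congr 1
      apply RingHom.ext
      intro q
      exact aeval_algebraMap_apply L sA q
    obtain ⟨g, hg0, hg⟩ := exi_alg w hwk s z hs0 hws hz1 i _ G rfl hi hev
    obtain ⟨c, hc⟩ := exi_root w hwk hwk1 z hz1 _ g rfl hg0 hg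
    refine ⟨c, ?_⟩
    by_cases hzc : z - algebraMap k L c = 0
    · exact Or.inl (sub_eq_zero.1 hzc)
    · right
      show 0 < -log (w (z - algebraMap k L c))
      have h1 : log (w (z - algebraMap k L c)) < 0 := by
        rw [log_lt_iff_lt_exp (hw0 _ hzc), exp_zero]
        exact hc
      omega
  · show -log (w x) < 0
    rw [hxs, map_inv₀, log_inv]
    have h1 : log (w s) < 0 := by
      rw [log_lt_iff_lt_exp (hw0 _ hs0), exp_zero]
      exact hws
    omega

end Pool.CND
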